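import Mathlib

/-! Classes of shifts whose differences are multiples of the terms of a progression (helper91). -/

set_option autoImplicit false

namespace Pool.Agent.K3h91.MG

open Finset

/-- `T` classes of `K` shifts; the differences between the classes `g`, `g'` are of the form
`(m g - m g') (x + l d)` with `l < J` -/
theorem cfg (T K : ℕ) (hK : 1 ≤ K) (m : Fin T → ℕ) (hm : Function.Injective m) :
    ∃ J C : ℕ, 1 ≤ J ∧ ∀ x d : ℕ, 1 ≤ x → 1 ≤ d → ∃ A : Fin T → Fin K → ℕ,
      Function.Injective (fun z : Fin T × Fin K => A z.1 z.2) ∧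
      (∀ g i, A g i ≤ C * (x + d)) ∧
      (∀ g g' i i', m g' < m g → ∃ l < J, A g i = A g' i' + (m g - m g') * (x + l * d)) ∧
      (∀ g i, A g i % (T * K).factorial = (m g * x) % (T * K).factorial) ∧
      (∀ g i, (T.factorial : ℤ) ∣ (A g i : ℤ) - m g * x) := by
  obtain ⟨D, hD⟩ : ∃ D : ℕ, D = ∑ g, m g := ⟨_, rfl⟩
  have hmD : ∀ g, m g ≤ D := fun g => by
    rw [hD]
    exact single_le_sum (f := m) (fun _ _ => Nat.zero_le _) (mem_univ g)
  obtain ⟨W, hW⟩ : ∃ W : ℕ, W = (T * K).factorial := ⟨_, rfl⟩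
  obtain ⟨L, hL⟩ : ∃ L : ℕ, L = D.factorial := ⟨_, rfl⟩
  have hW0 : 0 < W := by rw [hW]; exact Nat.factorial_pos _
  have hL0 : 0 < L := by rw [hL]; exact Nat.factorial_pos _
  obtain ⟨E, hE⟩ : ∃ E : ℕ, E = L * (W * (D * K + K)) := ⟨_, rfl⟩
  refine ⟨E + 1, D + E, by omega, fun x d hx hd => ?_⟩
  obtain ⟨t, ht⟩ : ∃ t : Fin T → Fin K → ℕ, ∀ g i, t g i = W * (m g * K + i) := ⟨_, fun _ _ => rfl⟩
  obtain ⟨A, hA⟩ : ∃ A : Fin T → Fin K → ℕ, ∀ g i, A g i = m g * x + d * (L * t g i) :=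
    ⟨_, fun _ _ => rfl⟩
  have htE : ∀ g i, L * t g i ≤ E := by
    intro g i
    rw [hE, ht]
    apply Nat.mul_le_mul_left
    apply Nat.mul_le_mul_left
    have := i.2
    have := Nat.mul_le_mul_right K (hmD g)
    omega
  -- the differences
  have hdiff : ∀ g g' i i', m g' < m g → ∃ l < E + 1, A g i = A g' i' + (m g - m g') * (x + l * d) := by
    intro g g' i i' hgg
    obtain ⟨L', hL'⟩ : (m g - m g') ∣ L := by
      rw [hL]
      refine Nat.dvd_factorial (by omega) ?_
      have := hmD g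
      omega
    have hle : t g' i' ≤ t g i := by
      rw [ht, ht]
      apply Nat.mul_le_mul_left
      have h1 : m g' * K + K ≤ m g * K := by
        have : (m g' + 1) * K ≤ m g * K := Nat.mul_le_mul_right _ hgg
        linarith
      have := i'.2
      omega
    refine ⟨L' * (t g i - t g' i'), ?_, ?_⟩
    · have h1 : L' ≤ L := by
        rw [hL']
        exact Nat.le_mul_of_pos_left _ (by omega)
      have h3 : L' * (t g i - t g' i') ≤ L * t g i :=
        Nat.mul_le_mul h1 (by omega)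
      have := htE g i
      omega
    · obtain ⟨u, hu⟩ : ∃ u, t g i = t g' i' + u := ⟨t g i - t g' i', by omega⟩
      obtain ⟨v, hv⟩ : ∃ v, m g = m g' + v := ⟨m g - m g', by omega⟩
      have h1 : t g i - t g' i' = u := by omega
      have h2 : m g - m g' = v := by omega
      rw [h2] at hL'
      rw [h1, h2, hA, hA, hu, hv]
      rw [hL']
      ring
  refine ⟨A, ?_, ?_, hdiff, ?_, ?_⟩
  · rintro ⟨g, i⟩ ⟨g', i'⟩ h
    have h' : A g i = A g' i' := h
    rcases lt_trichotomy (m g) (m g') with h1 | h1 | h1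
    · exfalso
      obtain ⟨l, -, hl⟩ := hdiff g' g i' i h1
      have : 0 < (m g' - m g) * (x + l * d) := Nat.mul_pos (by omega) (by omega)
      omega
    · have hg := hm h1
      subst hg
      rw [hA, hA] at h'
      have h2 := Nat.add_left_cancel h'
      have h3 := Nat.eq_of_mul_eq_mul_left (by omega : 0 < d) h2
      have h4 := Nat.eq_of_mul_eq_mul_left hL0 h3
      rw [ht, ht] at h4
      have h5 := Nat.eq_of_mul_eq_mul_left hW0 h4
      have h6 : (i : ℕ) = i' := by omega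
      exact Prod.ext rfl (Fin.ext h6)
    · exfalso
      obtain ⟨l, -, hl⟩ := hdiff g g' i i' h1
      have : 0 < (m g - m g') * (x + l * d) := Nat.mul_pos (by omega) (by omega)
      omega
  · intro g i
    rw [hA]
    have h1 := Nat.mul_le_mul_right x (hmD g)
    have h2 := Nat.mul_le_mul_left d (htE g i)
    calc m g * x + d * (L * t g i) ≤ D * x + d * E := Nat.add_le_add h1 h2
      _ ≤ (D + E) * (x + d) := by nlinarith [Nat.zero_le (D * d), Nat.zero_le (E * x)]
  · intro g i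
    rw [hA, ht, ← hW]
    have : d * (L * (W * (m g * K + i))) = W * (d * (L * (m g * K + i))) := by ring
    rw [this, Nat.add_mul_mod_self_left]
  · intro g i
    have h1 : (A g i : ℤ) - m g * x = (W : ℤ) * (d * (L * (m g * K + i))) := by
      rw [hA, ht]
      push_cast
      ring
    have h4K : Nat.factorial T ∣ W := by
      rw [hW]
      exact Nat.factorial_dvd_factorial (Nat.le_mul_of_pos_right _ hK)
    rw [h1]
    exact Dvd.dvd.mul_right (by exact_mod_cast h4K) _

open Classical in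
/-- van der Waerden's theorem, finite form -/
theorem vdw (J : ℕ) (κ : Type) [Finite κ] : ∃ R : ℕ, ∀ F : ℕ → κ,
    ∃ a d : ℕ, 1 ≤ d ∧ a + J * d < R ∧ ∃ c : κ, ∀ l < J, F (a + l * d) = c := by
  obtain ⟨ι, hι, h⟩ := Combinatorics.Line.exists_mono_in_high_dimension (Fin (J + 1)) κ
  refine ⟨Fintype.card ι * (J + 1) + J + 1, fun F => ?_⟩
  obtain ⟨l, c, hc⟩ := h (fun w => F (∑ i, (w i : ℕ)))
  obtain ⟨S, hS⟩ : ∃ S : Finset ι, S = univ.filter (fun i => l.idxFun i = none) := ⟨_, rfl⟩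
  obtain ⟨a, ha⟩ : ∃ a : ℕ, a = ∑ i ∈ Sᶜ, ((l 0 i : Fin (J + 1)) : ℕ) := ⟨_, rfl⟩
  have hval : ∀ x : Fin (J + 1), ∑ i, ((l x i : Fin (J + 1)) : ℕ) = a + x * S.card := by
    intro x
    rw [← sum_add_sum_compl S]
    have h1 : ∑ i ∈ S, ((l x i : Fin (J + 1)) : ℕ) = x * S.card := by
      rw [sum_congr rfl (fun i hi => ?_), sum_const, smul_eq_mul, mul_comm]
      rw [hS, mem_filter] at hi
      show ((l x i : Fin (J + 1)) : ℕ) = x
      rw [Combinatorics.Line.apply_none _ _ _ hi.2]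
    have h2 : ∑ i ∈ Sᶜ, ((l x i : Fin (J + 1)) : ℕ) = a := by
      rw [ha]
      refine sum_congr rfl (fun i hi => ?_)
      have hi' : l.idxFun i ≠ none := by
        rw [hS, mem_compl, mem_filter] at hi
        exact fun h => hi ⟨mem_univ _, h⟩
      obtain ⟨y, hy⟩ := Option.ne_none_iff_exists'.1 hi'
      rw [Combinatorics.Line.apply_some hy, Combinatorics.Line.apply_some hy]
    rw [h1, h2, add_comm]
  have hS1 : 1 ≤ S.card := by
    rw [Nat.one_le_iff_ne_zero, ← Nat.pos_iff_ne_zero, card_pos]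
    obtain ⟨i, hi⟩ := l.proper
    exact ⟨i, by rw [hS]; exact mem_filter.2 ⟨mem_univ _, hi⟩⟩
  refine ⟨a, S.card, hS1, ?_, c, fun j hj => ?_⟩
  · have h1 := hval (Fin.last J)
    have h2 : ∑ i, ((l (Fin.last J) i : Fin (J + 1)) : ℕ) ≤ Fintype.card ι * (J + 1) := by
      calc ∑ i, ((l (Fin.last J) i : Fin (J + 1)) : ℕ) ≤ ∑ _i : ι, (J + 1) :=
            sum_le_sum (fun i _ => (l (Fin.last J) i).2.le)
        _ = Fintype.card ι * (J + 1) := by rw [sum_const, card_univ, smul_eq_mul]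
    rw [Fin.val_last] at h1
    omega
  · have h1 := hval ⟨j, by omega⟩
    have h2 := hc ⟨j, by omega⟩
    simp only at h1 h2
    rw [h1] at h2
    exact h2

end Pool.Agent.K3h91.MG
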