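import Mathlib
import Pool.Agent.Y877.Consec
import Pool.Agent.K3h91.MG.Cfg

/-! Every progression of `J` terms contains a multiplier which gives a gap (helper91). -/

set_option autoImplicit false

namespace Pool.Agent.K3h91.MG

open Finset
open Pool.Agent.W59.GB Pool.Agent.H732R3.BigQ Pool.Agent.W25.UB
open Pool.Agent.Y877 (four admT)

/-- every progression of `J` terms contains a `k` with a gap among the `b (m j - m i) k` -/
theorem apGap (hCB : St_CB) (m : Fin 4 → ℕ) (hm : Function.Injective m) :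
    ∃ J : ℕ, 1 ≤ J ∧ ∀ N a : ℕ, 0 < N → 2 ∣ N → Squarefree N → a.Coprime N → ∀ b : ℕ, 1 ≤ b →
    (∀ p : ℕ, p.Prime → ¬ p ∣ N → ∃ r : ℤ, ∀ g, ¬ (p : ℤ) ∣ b * m g + r) →
    ∀ x d : ℕ, 1 ≤ x → 1 ≤ d →
    ∃ l < J, ∃ i j, m i < m j ∧ b * ((m j - m i) * (x + l * d)) ∈ GapB N a := by
  obtain ⟨K, hK, hF⟩ := four hCB
  obtain ⟨J, C, hJ, hcfg⟩ := cfg 4 K hK m hm
  refine ⟨J, hJ, fun N a hN h2N hsq ha b hb hbadm x d hx hd => ?_⟩
  obtain ⟨A, hinj, -, hdiff, hr, hk⟩ := hcfg x d hx hd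
  obtain ⟨g, g', i, i', hg, hlt, hG⟩ := hF N a hN h2N hsq ha (fun g i => b * A g i) ⟨by
      intro z z' h
      apply hinj
      exact Nat.eq_of_mul_eq_mul_left (by omega : 0 < b) h, fun p hp hpN => by
      obtain ⟨n, hn⟩ := admT 4 K b m p hp (hbadm p hp hpN) A _ x hr hk
      refine ⟨n, fun g i h => hn g i ?_⟩
      rw [add_comm]
      exact h⟩
  have hlt' : A g i < A g' i' := Nat.lt_of_mul_lt_mul_left hlt
  have hmlt : m g < m g' := by
    rcases lt_trichotomy (m g) (m g') with h1 | h1 | h1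
    · exact h1
    · exact absurd (hm h1) hg
    · exfalso
      obtain ⟨l, -, hl⟩ := hdiff g g' i i' h1
      omega
  obtain ⟨l, hl, hle⟩ := hdiff g' g i' i hmlt
  refine ⟨l, hl, g, g', hmlt, ?_⟩
  have h1 : b * A g' i' - b * A g i = b * ((m g' - m g) * (x + l * d)) := by
    rw [← Nat.mul_sub, hle, Nat.add_sub_cancel_left]
  have h2 : b * A g' i' - b * A g i ∈ GapB N a := hG
  rw [h1] at h2
  exact h2

end Pool.Agent.K3h91.MG
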