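import Mathlib
import Pool.Agent.Y877.RecB
import Pool.Agent.K3h91.MG.Cfg

/-! Progressions of multipliers up to the record scale (helper91). Adapted from `Pool.Agent.Y877.RecB`. -/

set_option autoImplicit false

namespace Pool.Agent.K3h91.MG

open Finset Filter Topology
open Pool.Agent.H256R2.SC (ff)
open Pool.Agent.H362R2.RQ (fib)
open Pool.Agent.Y877

open Classical in
/-- **Main theorem.** -/
theorem recAP : ∃ η : ℝ, 0 < η ∧ ∀ T : ℕ, 1 ≤ T → ∀ m : Fin T → ℕ, Function.Injective m →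
    ∃ J : ℕ, ∀ d : ℕ, Squarefree d →
    ∃ C : ℕ, ∀ᶠ X : ℝ in atTop, ∀ a b : ℕ, a.Coprime d → 1 ≤ b → d ∣ b →
    (∀ p : ℕ, p.Prime → ∃ r : ℤ, ∀ i, ¬ (p : ℤ) ∣ b * m i + r) →
    ∀ x e : ℕ, 1 ≤ x → 1 ≤ e → ((C * (b * (x + e)) : ℕ) : ℝ) ≤ ff X →
    ∃ l < J, ∃ S : Finset (Fin T), η * T ≤ S.card ∧
      Linked S (fun i j => X ^ (6 / 7 : ℝ) ≤ gapCount X d a (b * (Nat.dist (m i) (m j) * (x + l * e)))) := by
  obtain ⟨η, hη, HM⟩ := Pool.Agent.TH101.RG.tuple_multiples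
  refine ⟨η, hη, fun T hT m hm => ?_⟩
  obtain ⟨K, hTK, HM⟩ := HM T hT
  have hK : 1 ≤ K := hT.trans hTK
  obtain ⟨J₁, C₀, hJ₁, hcfg⟩ := cfg T K hK m hm
  obtain ⟨R₀, hvdw⟩ := vdw J₁ (Finset (Fin T × Fin T))
  refine ⟨R₀, fun d hd => ?_⟩
  obtain ⟨c, hc, HM⟩ := HM 1 1 1 d hd
  obtain ⟨C₁, hC₁⟩ : ∃ C₁ : ℕ, C₁ = C₀ * (2 * R₀ + 1) := ⟨_, rfl⟩
  obtain ⟨R, hR⟩ := exists_nat_ge (C₁ / c)
  have hRc : (C₁ : ℝ) ≤ c * R := by
    rw [div_le_iff₀ hc] at hR
    linarith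
  refine ⟨C₁ + R, ?_⟩
  have hpow : ∀ᶠ X : ℝ in atTop, (K : ℝ) ^ 2 * X ^ (6 / 7 : ℝ) ≤ X ^ (7 / 8 : ℝ) := by
    filter_upwards [(tendsto_rpow_atTop (by norm_num : (0 : ℝ) < 1 / 56)).eventually_ge_atTop ((K : ℝ) ^ 2),
      eventually_gt_atTop (0 : ℝ)] with X h1 h2
    calc (K : ℝ) ^ 2 * X ^ (6 / 7 : ℝ) ≤ X ^ (1 / 56 : ℝ) * X ^ (6 / 7 : ℝ) :=
          mul_le_mul_of_nonneg_right h1 (Real.rpow_nonneg h2.le _)
      _ = X ^ (7 / 8 : ℝ) := by
          rw [← Real.rpow_add h2]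
          norm_num
  filter_upwards [HM, Pool.Agent.H312R2.RG.ev_ff c hc, hpow, eventually_ge_atTop (1 : ℝ),
    Real.tendsto_log_atTop.eventually_ge_atTop (1 : ℝ)] with X hX hff hXp hX1 hXl a b ha hb hdb hbadm x e hx he hHX
  obtain ⟨Good, hGood⟩ : ∃ Good : ℕ → Prop, Good = fun g => X ^ (6 / 7 : ℝ) ≤ gapCount X d a (b * g) :=
    ⟨_, rfl⟩
  -- the graph of the good pairs
  obtain ⟨Gr, hGr⟩ : ∃ Gr : ℕ → Finset (Fin T × Fin T), ∀ k p, p ∈ Gr k ↔
      Good (Nat.dist (m p.1) (m p.2) * k) :=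
    ⟨fun k => univ.filter (fun p => Good (Nat.dist (m p.1) (m p.2) * k)), fun k p => by
      rw [mem_filter]; exact ⟨fun h => h.2, fun h => ⟨mem_univ _, h⟩⟩⟩
  obtain ⟨a₀, d₀, hd₀, ha₀, G, hG⟩ := hvdw (fun l => Gr (x + l * e))
  obtain ⟨x', hx'⟩ : ∃ x', x' = x + a₀ * e := ⟨_, rfl⟩
  obtain ⟨e', he'⟩ : ∃ e', e' = d₀ * e := ⟨_, rfl⟩
  have hterm : ∀ l, x' + l * e' = x + (a₀ + l * d₀) * e := fun l => by rw [hx', he']; ring
  have hGl : ∀ l < J₁, Gr (x' + l * e') = G := fun l hl => by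
    rw [hterm]
    exact hG l hl
  obtain ⟨A, hinj, hAle, hAd, hr, hk₀⟩ := hcfg x' e' (by omega) (by rw [he']; exact Nat.mul_pos hd₀ he)
  have hxe : x' + e' ≤ (2 * R₀ + 1) * (x + e) := by
    have h1 : a₀ ≤ R₀ := by omega
    have h2 : d₀ ≤ R₀ := by
      have : 1 * d₀ ≤ J₁ * d₀ := Nat.mul_le_mul_right _ hJ₁
      omega
    have h3 : a₀ * e ≤ R₀ * e := Nat.mul_le_mul_right _ h1
    have h4 : d₀ * e ≤ R₀ * e := Nat.mul_le_mul_right _ h2
    have h5 : (2 * R₀ + 1) * (x + e) = x + R₀ * e + R₀ * e + (2 * (R₀ * x) + e) := by ring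
    omega
  -- the tuple
  obtain ⟨t, ht⟩ : ∃ t : Fin K → ℕ, ∀ j, t j = b * A (clz T hT j) j := ⟨fun j => b * A (clz T hT j) j, fun _ => rfl⟩
  have htinj : Function.Injective t := by
    intro j j' h
    rw [ht, ht] at h
    exact clz_inj T hT A hinj (Nat.eq_of_mul_eq_mul_left (by omega : 0 < b) h)
  have htff : ∀ j, (t j : ℝ) ≤ c * ff X := by
    intro j
    have h1 : t j ≤ C₁ * (b * (x + e)) := by
      rw [ht]
      calc b * A (clz T hT j) j ≤ b * (C₀ * (x' + e')) := Nat.mul_le_mul_left _ (hAle _ _)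
        _ ≤ b * (C₀ * ((2 * R₀ + 1) * (x + e))) :=
          Nat.mul_le_mul_left _ (Nat.mul_le_mul_left _ hxe)
        _ = C₁ * (b * (x + e)) := by rw [hC₁]; ring
    have h2 : (t j : ℝ) ≤ C₁ * ((b * (x + e) : ℕ) : ℝ) := by exact_mod_cast h1
    have h3 : ((R * (b * (x + e)) : ℕ) : ℝ) ≤ ff X := by
      refine le_trans ?_ hHX
      exact_mod_cast Nat.mul_le_mul_right _ (by omega : R ≤ C₁ + R)
    have h4 : (C₁ : ℝ) * ((b * (x + e) : ℕ) : ℝ) ≤ c * R * ((b * (x + e) : ℕ) : ℝ) :=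
      mul_le_mul_of_nonneg_right hRc (Nat.cast_nonneg _)
    have h5 : c * (R : ℝ) * ((b * (x + e) : ℕ) : ℝ) = c * ((R * (b * (x + e)) : ℕ) : ℝ) := by
      push_cast; ring
    have h6 : c * ((R * (b * (x + e)) : ℕ) : ℝ) ≤ c * ff X := mul_le_mul_of_nonneg_left h3 hc.le
    linarith
  have hadm : ∀ p : ℕ, p.Prime → ∃ v : ℕ, ∀ j, ¬ p ∣ v + t j := by
    intro p hp
    obtain ⟨n, hn⟩ := admT T K b m p hp (hbadm p hp) A _ x' hr hk₀
    have hp0 : (p : ℤ) ≠ 0 := by exact_mod_cast hp.ne_zero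
    refine ⟨(n % p).toNat, fun j h => hn (clz T hT j) j ?_⟩
    have h1 : ((n % p).toNat : ℤ) = n % p := Int.toNat_of_nonneg (Int.emod_nonneg _ hp0)
    have h2 : (p : ℤ) ∣ ((n % p).toNat : ℤ) + t j := by exact_mod_cast h
    rw [h1, ht] at h2
    have h3 : ((b * A (clz T hT j) j : ℕ) : ℤ) + n = (n % p + ((b * A (clz T hT j) j : ℕ) : ℤ)) + (n - n % p) := by ring
    rw [h3]
    exact dvd_add h2 (Int.dvd_self_sub_emod)
  have htd : ∀ j, d ∣ t j := fun j => by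
    rw [ht]
    exact hdb.mul_right _
  obtain ⟨bad, hbadc, hbad⟩ := bad_set X (by linarith) d a t
  obtain ⟨n, hXn, hn3, hnb, hnd, ⟨E, hE1, hE2⟩, hiso⟩ := hX 1 0 one_ne_zero (by
      rw [pow_one]
      simpa using hXl)
    (by simp) (by
      rw [pow_one]
      simp only [Int.cast_zero, abs_zero]
      linarith) t htinj (fun j => (htff j).trans hff.1) hadm a (fun j => by
      obtain ⟨e, he⟩ := htd j
      rw [he]
      have h1 : Nat.Coprime (a + d * e) d := by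
        rw [Nat.coprime_add_mul_left_left]
        exact ha
      exact h1)
    (clz T hT) (fun e => clz_card T K hT hTK e) bad (hbadc.trans hXp)
  have hiso' : ∀ q : ℕ, q.Prime → n ≤ q → (q : ℝ) ≤ n + c * ff X → ∃ l, q = n + t l := by
    intro q hq hnq hqn
    refine hiso 1 1 (by simp) (by simp) (by simp) (by simp) q hq ?_
    have h1 : ((1 * (q : ℤ) - 1 * (1 * (n : ℤ) + 0) : ℤ) : ℝ) = (q : ℝ) - n := by push_cast; ring
    have h2 : (n : ℝ) ≤ q := by exact_mod_cast hnq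
    rw [h1, abs_of_nonneg (by linarith)]
    linarith
  -- the hits
  obtain ⟨P, hP⟩ : ∃ P : Finset (Fin K), ∀ j, j ∈ P ↔ (n + t j).Prime :=
    ⟨univ.filter (fun j => (n + t j).Prime), fun j => by
      rw [mem_filter]; exact ⟨fun h => h.2, fun h => ⟨mem_univ _, h⟩⟩⟩
  have hlink : Linked (P.image (clz T hT)) (fun i j => (i, j) ∈ G) := by
    refine linked_of_path t htinj P (clz T hT) _ (fun x y hxy => ?_) (fun w hw z hz hwz hcons hne => ?_)
    · -- symmetry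
      have h2 : (x, y) ∈ G := hxy
      show (y, x) ∈ G
      rw [← hGl 0 hJ₁] at h2 ⊢
      rw [hGr] at h2 ⊢
      rw [Nat.dist_comm]
      exact h2
    · show (clz T hT w, clz T hT z) ∈ G
      have hg : n + t w ∈ gset X d a (t z - t w) := by
        rw [mem_gset]
        have e1 : n + t w + (t z - t w) = n + t z := by omega
        have hw0 : (0 : ℝ) ≤ t w := Nat.cast_nonneg _
        have h1 : (t w : ℝ) ≤ X := by
          have h2 := htff w
          have h3 := hff.2.2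
          have h4 : 0 ≤ c * ff X := mul_nonneg hc.le hff.2.1
          linarith
        refine ⟨by push_cast; linarith, by push_cast; linarith, ?_, (hP w).1 hw, ?_, ?_⟩
        · have h5 : t w ≡ 0 [MOD d] := (Nat.modEq_zero_iff_dvd).2 (htd w)
          have h6 := hnd.add h5
          rw [add_zero] at h6
          exact h6
        · rw [e1]
          exact (hP z).1 hz
        · intro q hq1 hq2 hqp
          rw [e1] at hq2
          obtain ⟨l, hl⟩ := hiso' q hqp (by omega) (by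
            have h2 : (q : ℝ) ≤ ((n + t z : ℕ) : ℝ) := by exact_mod_cast hq2.le
            push_cast at h2
            have h3 := htff z
            linarith)
          rw [hl] at hq1 hq2 hqp
          have h2 := hcons l ((hP l).2 hqp) (by omega)
          omega
      have hgood := hbad n w z hnb hg
      have hlt' : A (clz T hT w) w < A (clz T hT z) z := by
        rw [ht, ht] at hwz
        exact Nat.lt_of_mul_lt_mul_left hwz
      have hmlt : m (clz T hT w) < m (clz T hT z) := by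
        rcases lt_trichotomy (m (clz T hT w)) (m (clz T hT z)) with h1 | h1 | h1
        · exact h1
        · exact absurd (hm h1) hne
        · exfalso
          obtain ⟨l, -, hl⟩ := hAd _ _ w z h1
          omega
      obtain ⟨l, hl, hle⟩ := hAd _ _ z w hmlt
      rw [← hGl l hl, hGr, hGood]
      show X ^ (6 / 7 : ℝ) ≤ gapCount X d a (b * (Nat.dist (m (clz T hT w)) (m (clz T hT z)) * (x' + l * e')))
      have h1 : t z - t w = b * (Nat.dist (m (clz T hT w)) (m (clz T hT z)) * (x' + l * e')) := by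
        rw [ht, ht, ← Nat.mul_sub, Nat.dist_eq_sub_of_le hmlt.le, hle, Nat.add_sub_cancel_left]
      rw [← h1]
      exact hgood
  have hcard : η * T ≤ ((P.image (clz T hT)).card : ℝ) := by
    refine hE1.trans ?_
    rw [Nat.cast_le]
    apply card_le_card
    intro e he
    obtain ⟨j, hj1, hj2⟩ := hE2 e he
    exact mem_image.2 ⟨j, (hP j).2 hj2, hj1⟩
  refine ⟨a₀, by omega, _, hcard, fun i hi j hj => ?_⟩
  have h3 : (fun x y => x ∈ P.image (clz T hT) ∧ y ∈ P.image (clz T hT) ∧ (x, y) ∈ G) ≤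
      (fun y z => y ∈ P.image (clz T hT) ∧ z ∈ P.image (clz T hT) ∧
        X ^ (6 / 7 : ℝ) ≤ gapCount X d a (b * (Nat.dist (m y) (m z) * (x + a₀ * e)))) := by
    intro y z hxy
    refine ⟨hxy.1, hxy.2.1, ?_⟩
    have h2 : (y, z) ∈ G := hxy.2.2
    have h4 := hGl 0 hJ₁
    rw [zero_mul, add_zero, hx'] at h4
    rw [← h4, hGr, hGood] at h2
    exact h2
  exact Relation.ReflTransGen.mono h3 i j (hlink i hi j hj)

end Pool.Agent.K3h91.MG
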